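import Pool.Agent.helper65.GF.SpecG

/-!
# Row bz:YHE
-/

set_option autoImplicit false

namespace Pool.Agent.GD

open Finset Metric Filter Topology

theorem YHE_two (Q : ℕ → ℂ) (hQ : Cara Q) (n : ℕ) : ‖Q n‖ ≤ 2 := by
  rcases Nat.eq_zero_or_pos n with hn | hn
  · rw [hn, hQ.1, norm_one]
    norm_num
  · exact h_XCB.2 Q n hQ hn

theorem YHE : YHE_stmt := by
  intro N w x κ hA hκ
  have h0 : cv (ex (-1) (mom w x)) κ 0 = 1 := by
    unfold cv
    rw [zero_add, Finset.sum_range_one, ex_zero, hκ.1, one_mul]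
  have hω1 : ex (-1) (mom w x) 1 = -mom w x 1 := by
    have h := (ex_rec (-1) (mom w x)).2 1
    rw [Finset.sum_range_one, ex_zero] at h
    simpa using h
  have hk1 : ‖κ 1‖ ≤ 2 := h_XCB.2 κ 1 hκ le_rfl
  refine ⟨h0, ?_, ?_⟩
  · have he : cv (ex (-1) (mom w x)) κ 1 = κ 1 - mom w x 1 := by
      unfold cv
      rw [Finset.sum_range_succ, Finset.sum_range_one, Nat.sub_zero, Nat.sub_self, ex_zero, hω1,
        hκ.1]
      ring
    rw [he]
    have h4 : ‖κ 1 - mom w x 1‖ ≤ ‖κ 1‖ + ‖mom w x 1‖ := norm_sub_le _ _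
    nlinarith [sq_nonneg (1 - ‖mom w x 1‖)]
  · intro i
    rcases Nat.eq_zero_or_pos i with hi | hi
    · rw [hi, h0, norm_one]
      norm_num
    · apply XEB_aux h_XAV _ κ hκ i hi
      intro y hy
      have h4 := h_XTB N w x y hA hy
      have h5 := YHE_two _ h4 i
      have h6 := YHE_two _ h4 (i - 1)
      linarith

end Pool.Agent.GD
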